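import Pool.Agent.Helper31.QD.Shrink

/-!
# Minimal models with many twin classes have small twin classes
-/

set_option autoImplicit false

namespace Pool.Agent.Helper31.FM

open FirstOrder Pool.Agent.Helper20.Spectra Pool.Agent.Helper58.QD Pool.Agent.Helper31.QD

variable {S : Type} {ar : S → ℕ}

/-- a class of twins: the complement is a support -/
theorem sup_of_twins {M : Type} [Fintype M] [DecidableEq M] {R : Interp S ar M} {C : Finset M}
    (hC : ∀ x ∈ C, ∀ y ∈ C, Au R (Equiv.swap x y)) : SupI R Cᶜ := by
  have key : ∀ (m : ℕ) (σ : Equiv.Perm M), σ.support.card ≤ m → (∀ x ∈ Cᶜ, σ x = x) → Au R σ := by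
    intro m
    induction m with
    | zero =>
      intro σ hσ _
      have h1 : σ.support = ∅ := Finset.card_eq_zero.1 (by omega)
      rw [Equiv.Perm.support_eq_empty_iff] at h1
      subst h1
      intro s t
      exact Iff.rfl
    | succ m ih =>
      intro σ hσ hfix
      by_cases h1 : σ = 1
      · subst h1
        intro s t
        exact Iff.rfl
      · obtain ⟨x, hx⟩ : ∃ x, σ x ≠ x := by
          by_contra hcon
          push Not at hcon
          exact h1 (Equiv.ext hcon)
        have h2 := Equiv.Perm.card_support_swap_mul hx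
        have hxC : x ∈ C := by
          by_contra h
          exact hx (hfix x (Finset.mem_compl.2 h))
        have hyC : σ x ∈ C := by
          by_contra h
          exact hx (σ.injective (hfix (σ x) (Finset.mem_compl.2 h)))
        have h3 := ih (Equiv.swap x (σ x) * σ) (by omega) (by
          intro z hz
          have h4 := hfix z hz
          rw [Equiv.Perm.mul_apply, h4]
          apply Equiv.swap_apply_of_ne_of_ne
          · rintro rfl; exact (Finset.mem_compl.1 hz) hxC
          · rintro rfl; exact (Finset.mem_compl.1 hz) hyC)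
        have h5 : σ = Equiv.swap x (σ x) * (Equiv.swap x (σ x) * σ) := by
          rw [← mul_assoc, Equiv.swap_mul_self, one_mul]
        rw [h5]
        exact (hC x hxC _ hyC).mul h3
  intro s σ hσ t
  exact key _ σ le_rfl hσ s t

/-- L3 -/
theorem min_model [Finite S] {χ : (RelLang S ar).Sentence} {k : ℕ} (hk : ∀ s, ar s ≤ k)
    (h : ∀ r, ∃ (n : ℕ) (R : Interp S ar (Fin n)) (T : Finset (Fin n)), IsMod χ R ∧ r ≤ T.card ∧
      ∀ x ∈ T, ∀ y ∈ T, x ≠ y → ¬ Au R (Equiv.swap x y)) :
    ∀ N, ∃ n, N ≤ n ∧ ∃ R : Interp S ar (Fin n), IsMod χ R ∧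
      ∀ C : Finset (Fin n), (∀ x ∈ C, ∀ y ∈ C, Au R (Equiv.swap x y)) → C.card ≤ k + qd χ + 3 := by
  classical
  intro N
  have hex : ∃ n, ∃ (R : Interp S ar (Fin n)) (T : Finset (Fin n)), IsMod χ R ∧ N ≤ T.card ∧
      ∀ x ∈ T, ∀ y ∈ T, x ≠ y → ¬ Au R (Equiv.swap x y) := by
    obtain ⟨n, R, T, h1⟩ := h N
    exact ⟨n, R, T, h1⟩
  obtain ⟨R, T, hR, hT, hT'⟩ := Nat.find_spec hex
  have hmin : ∀ m, (∃ (R : Interp S ar (Fin m)) (T : Finset (Fin m)), IsMod χ R ∧ N ≤ T.card ∧
      ∀ x ∈ T, ∀ y ∈ T, x ≠ y → ¬ Au R (Equiv.swap x y)) → Nat.find hex ≤ m := fun m hm => Nat.find_min' hex hm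
  generalize Nat.find hex = n at R T hR hT hT' hmin
  have hTn : T.card ≤ n := by
    have := Finset.card_le_univ T
    rwa [Fintype.card_fin] at this
  refine ⟨n, by omega, R, hR, fun C hC => ?_⟩
  by_contra hcon
  push Not at hcon
  -- a point of the class outside `T`
  obtain ⟨x, hxC, hxT⟩ : ∃ x ∈ C, x ∉ T := by
    by_contra hall
    push Not at hall
    obtain ⟨a, ha, b, hb, hab⟩ := Finset.one_lt_card.1 (show 1 < C.card by omega)
    exact hT' a (hall a ha) b (hall b hb) hab (hC a ha b hb)
  have hsup := sup_of_twins hC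
  have hd : Disjoint Cᶜ (C.erase x) := by
    rw [Finset.disjoint_left]
    intro c hc hcB
    exact (Finset.mem_compl.1 hc) (Finset.mem_of_mem_erase hcB)
  have hBc : (C.erase x).card = C.card - 1 := Finset.card_erase_of_mem hxC
  set W : Finset (Fin n) := Cᶜ ∪ C.erase x with hW
  have hmemW : ∀ z, z ∈ W ↔ z ≠ x := by
    intro z
    rw [hW, Finset.mem_union, Finset.mem_compl, Finset.mem_erase]
    constructor
    · rintro (h1 | h1)
      · rintro rfl; exact h1 hxC
      · exact h1.1
    · intro h1
      by_cases hz : z ∈ C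
      · exact Or.inr ⟨h1, hz⟩
      · exact Or.inl hz
  have hWc : W.card < n := by
    have h1 : W ⊂ Finset.univ := by
      rw [Finset.ssubset_univ_iff]
      intro h2
      exact (hmemW x).1 (by rw [h2]; exact Finset.mem_univ x) rfl
    have := Finset.card_lt_card h1
    rwa [Finset.card_univ, Fintype.card_fin] at this
  have hmod : IsMod χ (resI R W) := by
    have h1 := ef hsup hd (n := 0) χ (by rw [hBc]; omega) default default
    have h2 : (fun e => ((default : Empty → (Cᶜ ∪ C.erase x : Finset (Fin n))) e : Fin n)) = (default : Empty → Fin n) := funext fun e => e.elim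
    have h3 : (fun i => ((default : Fin 0 → (Cᶜ ∪ C.erase x : Finset (Fin n))) i : Fin n)) = (default : Fin 0 → Fin n) := funext fun e => e.elim0
    rw [h2, h3] at h1
    exact h1.1 hR
  -- the points of `T` are not twins in the smaller structure
  have hnt : ∀ y z : W, (y : Fin n) ∈ T → (z : Fin n) ∈ T → y ≠ z → ¬ Au (resI R W) (Equiv.swap y z) := by
    intro y z hy hz hyz hau
    have hyz' : (y : Fin n) ≠ z := fun h => hyz (Subtype.ext h)
    apply hT' y hy z hz hyz'
    intro s t
    -- move the tuple off `x`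
    obtain ⟨w, hw, hw'⟩ : ∃ w ∈ C, w ∉ (Finset.univ.image t ∪ {(y : Fin n), (z : Fin n), x}) := by
      apply Finset.exists_mem_notMem_of_card_lt_card
      have h1 : (Finset.univ.image t ∪ {(y : Fin n), (z : Fin n), x}).card ≤ k + 3 := by
        refine (Finset.card_union_le _ _).trans ?_
        have h2 : (Finset.univ.image t).card ≤ ar s := by
          refine Finset.card_image_le.trans ?_
          simp
        have h3 := hk s
        have h4 : ({(y : Fin n), (z : Fin n), x} : Finset (Fin n)).card ≤ 3 := Finset.card_le_three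
        omega
      omega
    simp only [Finset.mem_union, Finset.mem_image, Finset.mem_univ, true_and, Finset.mem_insert, Finset.mem_singleton, not_or,
      not_exists] at hw'
    obtain ⟨hwt, hwy, hwz, hwx⟩ := hw'
    have hxw := hC x hxC w hw
    have hyx : (y : Fin n) ≠ x := (hmemW y).1 y.2
    have hzx : (z : Fin n) ≠ x := (hmemW z).1 z.2
    have hmem : ∀ i, Equiv.swap x w (t i) ∈ W := by
      intro i
      rw [hmemW]
      intro h1
      have h2 : t i = w := by
        have := congrArg (Equiv.swap x w) h1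
        rwa [Equiv.swap_apply_self, Equiv.swap_apply_left] at this
      exact hwt i h2
    let t' : Fin (ar s) → W := fun i => ⟨Equiv.swap x w (t i), hmem i⟩
    have h1 := hau s t'
    have h2 : resI R W s t' ↔ R s t := hxw s t
    have h3 : ∀ q : W, ((Equiv.swap y z q : W) : Fin n) = Equiv.swap (y : Fin n) (z : Fin n) (q : Fin n) := by
      intro q
      by_cases hq1 : q = y
      · subst hq1
        rw [Equiv.swap_apply_left, Equiv.swap_apply_left]
      · by_cases hq2 : q = z
        · subst hq2
          rw [Equiv.swap_apply_right, Equiv.swap_apply_right]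
        · rw [Equiv.swap_apply_of_ne_of_ne hq1 hq2, Equiv.swap_apply_of_ne_of_ne]
          · exact fun h => hq1 (Subtype.ext h)
          · exact fun h => hq2 (Subtype.ext h)
    have h4 : resI R W s (Equiv.swap y z ∘ t') ↔ R s (Equiv.swap (y : Fin n) (z : Fin n) ∘ t) := by
      rw [← hxw s (Equiv.swap (y : Fin n) (z : Fin n) ∘ t)]
      refine Iff.of_eq (congrArg (R s) ?_)
      funext i
      show ((Equiv.swap y z (t' i) : W) : Fin n) = Equiv.swap x w (Equiv.swap (y : Fin n) (z : Fin n) (t i))
      rw [h3]
      show Equiv.swap (y : Fin n) (z : Fin n) (Equiv.swap x w (t i)) = _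
      by_cases ha : t i = x
      · rw [ha, Equiv.swap_apply_left, Equiv.swap_apply_of_ne_of_ne hwy hwz,
          Equiv.swap_apply_of_ne_of_ne (Ne.symm hyx) (Ne.symm hzx), Equiv.swap_apply_left]
      · have hb : t i ≠ w := hwt i
        rw [Equiv.swap_apply_of_ne_of_ne ha hb]
        by_cases hy1 : t i = y
        · rw [hy1, Equiv.swap_apply_left, Equiv.swap_apply_of_ne_of_ne hzx (Ne.symm hwz)]
        · by_cases hz1 : t i = z
          · rw [hz1, Equiv.swap_apply_right, Equiv.swap_apply_of_ne_of_ne hyx (Ne.symm hwy)]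
          · rw [Equiv.swap_apply_of_ne_of_ne hy1 hz1, Equiv.swap_apply_of_ne_of_ne ha hb]
    exact (h4.symm.trans h1).trans h2
  -- transport
  let e : W ≃ Fin W.card := W.equivFin
  let R' : Interp S ar (Fin W.card) := fun s t => resI R W s (e.symm ∘ t)
  have hmod' : IsMod χ R' := by
    let _ := mkS (resI R W)
    let _ := mkS R'
    let E : W ≃[RelLang S ar] Fin W.card :=
      { e with
        map_fun' := fun f => Empty.elim f
        map_rel' := by
          intro n r x
          show resI R W r.1 _ ↔ resI R W r.1 _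
          have : (e.symm ∘ fun i => (e ∘ x) (Fin.cast r.2 i)) = fun i => x (Fin.cast r.2 i) := by
            funext i
            simp
          exact Iff.of_eq (congrArg _ this) }
    exact (Language.StrongHomClass.realize_sentence E χ).1 hmod
  have hTW : ∀ a ∈ T, a ∈ W := fun a ha => (hmemW a).2 (by rintro rfl; exact hxT ha)
  let iT : {a // a ∈ T} → W := fun a => ⟨a.1, hTW a.1 a.2⟩
  have hiT : ∀ a b, iT a = iT b → a = b := fun a b hab => Subtype.ext (congrArg (fun q : W => (q : Fin n)) hab)
  have hfin := hmin W.card ⟨R', T.attach.image (fun a => e (iT a)), hmod', by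
    rw [Finset.card_image_of_injective, Finset.card_attach]
    · exact hT
    · intro a b hab
      exact hiT a b (e.injective hab), by
    intro y hy z hz hyz
    obtain ⟨a, -, rfl⟩ := Finset.mem_image.1 hy
    obtain ⟨b, -, rfl⟩ := Finset.mem_image.1 hz
    intro hau
    refine hnt (iT a) (iT b) a.2 b.2 (fun h => hyz (congrArg e h)) ?_
    intro s t
    have h1 := hau s (e ∘ t)
    have h2 : (e.symm ∘ (e ∘ t)) = t := by funext i; simp
    have h3 : (e.symm ∘ (Equiv.swap (e (iT a)) (e (iT b)) ∘ (e ∘ t))) = Equiv.swap (iT a) (iT b) ∘ t := by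
      funext i
      simp only [Function.comp_apply]
      rw [← Equiv.symm_trans_swap_trans, Equiv.trans_apply, Equiv.trans_apply, Equiv.symm_apply_apply, Equiv.symm_apply_apply]
    have h4 : R' s (Equiv.swap (e (iT a)) (e (iT b)) ∘ (e ∘ t)) ↔ resI R W s (Equiv.swap (iT a) (iT b) ∘ t) :=
      Iff.of_eq (congrArg (resI R W s) h3)
    have h5 : R' s (e ∘ t) ↔ resI R W s t := Iff.of_eq (congrArg (resI R W s) h2)
    exact (h4.symm.trans h1).trans h5⟩
  omega

end Pool.Agent.Helper31.FM
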